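import Pool.Agent.N89.HA.Fin

/-!
# Pull-backs of arbitrary coverings of `ℙ^n` to semiabelian varieties, over all finite extensions

`K` is a number field, `G = E_1 × ⋯ × E_r × G_m^s`, where `E_i` is an elliptic curve
`y² = x³ + a_i x` or `y² = x³ + b_i` over `K` (`r + s` arbitrary, any rank); `G` is special and
potentially dense. For `c ∈ (𝓞 K)^J` let `φ_c : G → ℙ^n` be the map with the coordinates
`Φ_j + ∑_x c_(j,x) Λ_(j,x)`, `j = 0, …, n`, where `Φ_j`, `Λ_(j,x)` are polynomials over `𝓞 K` in the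
homogeneous coordinates of the points of the `E_i` and in the coordinates of the torus, of the same
multidegree, and each linear system `(Λ_(j,x))_x` has no base points on `G`.

Let `L` be a finite extension of `K`. We assume that `K` is not totally real, or that `L` has a real
embedding. Let

  `h(T; X) = h_0(T) + h_1(T) X + ⋯ + h_e(T) X^e`,  `T = (T_0, …, T_n)`,

be a polynomial over `𝓞 L`, the `h_i` homogeneous of the same degree in `T`, i.e. a covering
`Y → ℙ^n` over `L`, which is regular with the group `𝒢 ⊆ S_e`: its Galois group over `L(T)` is `𝒢`, and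
on some complex line `y + x v` its Galois group over `ℂ(x)` is `𝒢`, too. `𝒢` is ANY group of permutations.

**Theorem.** For almost all `c` ALL the polynomials `h(φ_c(P); X)`, `P ∈ G(L)` (with `S`-units as torus
coordinates; for `s = 0` all the `L`-rational points), have degree `e` and the Galois group `𝒢` over
`L`. If `𝒢` is transitive and `e ≥ 2`, the covering `φ_c^* Y : h(φ_c(P); X) = 0` of `G` has no
`L`-rational points over these `P` (neither finite ones nor points with `X = ∞`).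

1. For all `L`, `h`, `𝒢` and `S ≥ 1` at most `(2H+1)^(|J|N) exp(-c₀ log H / log log H)` of the
`(2H+1)^(|J|N)` vectors `c` of size at most `H` are such that this is false, `N = [K : ℚ]`.

2. There is ONE exceptional set `𝓔`, with at most `(2H+1)^(|J|N) exp(-log H / (log log H)²)` elements of
size at most `H`, such that for ALL fields `L` as above, ALL such coverings `h` over `L` (of all degrees
`e`, with all groups `𝒢`) and all `S` all but finitely many `c ∉ 𝓔` have the property.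

So for `c ∉ 𝓔`, `|c| → ∞` the smallest field `L ⊇ K` (of this kind) over which one of the coverings
`φ_c^* Y` of the special variety `G` has points tends to infinity, for each `Y`.
-/

set_option autoImplicit false

namespace Pool.Agent.N89.MI.Cov

open Polynomial NumberField

/-- polynomials with coefficients in `O` in the homogeneous coordinates `V_(i,j)`, `i < r`, `j < 3`,
of points in `r` planes and the coordinates `u_l` of a torus of dimension `s` -/
abbrev Pol (O : Type) [CommRing O] (r s : ℕ) : Type := MvPolynomial ((Fin r × Fin 3) ⊕ Fin s) O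

/-- homogeneous of degree `d i` in `V_i` -/
def Homog {O : Type} [CommRing O] {r s : ℕ} (F : Pol O r s) (d : Fin r → ℕ) : Prop :=
  ∀ μ ∈ F.support, ∀ i, ∑ j, μ (Sum.inl (i, j)) = d i

/-- the value `F(V, u)`; the coefficients are mapped by `φ` -/
noncomputable def val {O k : Type} [CommRing O] [CommRing k] (φ : O →+* k) {r s : ℕ}
    (F : Pol O r s) (V : Fin r → Fin 3 → k) (u : Fin s → k) : k :=
  MvPolynomial.eval₂ φ (Sum.elim (fun ij => V ij.1 ij.2) u) F

/-- `(V, u)` represents a point of `E_1 × ⋯ × E_r × G_m^s`, `E_i : y² = x³ + a_i x + b_i` -/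
def OnG {k : Type} [Field k] {r s : ℕ} (a b : Fin r → ℤ) (V : Fin r → Fin 3 → k) (u : Fin s → k) :
    Prop :=
  (∀ i, V i ≠ 0 ∧ V i 1 ^ 2 * V i 2 = V i 0 ^ 3 + a i * V i 0 * V i 2 ^ 2 + b i * V i 2 ^ 3) ∧
    ∀ l, u l ≠ 0

/-- the embedding of `𝓞 K` in `ℂ` -/
noncomputable def emb {K : Type} [Field K] (σ : K →+* ℂ) : 𝓞 K →+* ℂ :=
  σ.comp (algebraMap (𝓞 K) K)

/-- the inclusion of `𝓞 K` in the extension `L` of `K` -/
noncomputable def incl (K L : Type) [Field K] [Field L] [Algebra K L] : 𝓞 K →+* L :=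
  (algebraMap K L).comp (algebraMap (𝓞 K) K)

/-- the polynomial `∑ f_i X^i` has degree `e`, it has the `e` different roots `x_1, …, x_e` in the
algebraic closure of `K`, and its Galois group over `K`, as a group of permutations of the indices of
the roots, is `𝒢` -/
def GalIs {K : Type} [Field K] {e : ℕ} (f : Fin (e + 1) → K) (𝒢 : Subgroup (Equiv.Perm (Fin e))) :
    Prop :=
  ∃ x : Fin e → AlgebraicClosure K, (f (Fin.last e) ≠ 0 ∧ Function.Injective x ∧
    (∑ i, C (f i) * X ^ (i : ℕ)).map (algebraMap K (AlgebraicClosure K)) =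
      C (algebraMap K (AlgebraicClosure K) (f (Fin.last e))) * ∏ i, (X - C (x i))) ∧
    ∀ σ : Equiv.Perm (Fin e), σ ∈ 𝒢 ↔
      ∃ τ : AlgebraicClosure K ≃ₐ[K] AlgebraicClosure K, ∀ i, τ (x i) = x (σ i)

/-- `x` is an `S`-unit (for `x ≠ 0`): `S^n x` and `S^n x⁻¹` are algebraic integers for some `n` -/
def SUnit {L : Type} [Field L] (S : ℕ) (x : L) : Prop :=
  ∃ n : ℕ, IsIntegral ℤ ((S : L) ^ n * x) ∧ IsIntegral ℤ ((S : L) ^ n * x⁻¹)

/-- the `j`-th coordinate of the point `φ_c(V, u)` over `L`; the vector `c` represents the coefficients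
`c_(j,x) = ∑_i c_((j,x),i) ω_i ∈ 𝓞 K` -/
noncomputable def coord {K L : Type} [Field K] [NumberField K] [Field L] [Algebra K L] {N r s n : ℕ}
    (ω : Module.Basis (Fin N) ℤ (𝓞 K)) (Φ : Fin (n + 1) → Pol (𝓞 K) r s)
    {ι : Fin (n + 1) → Type} [∀ j, Fintype (ι j)] (Λ : (j : Fin (n + 1)) → ι j → Pol (𝓞 K) r s)
    (c : (Σ j, ι j) × Fin N → ℤ) (V : Fin r → Fin 3 → L) (u : Fin s → L) (j : Fin (n + 1)) : L :=
  val (incl K L) (Φ j) V u +
    ∑ x, incl K L (∑ i, c (⟨j, x⟩, i) • ω i) * val (incl K L) (Λ j x) V u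

/-- the coefficients of the polynomial `h(φ_c(V, u); X)` -/
noncomputable def spec {K L : Type} [Field K] [NumberField K] [Field L] [Algebra K L]
    {N r s n e : ℕ} (ω : Module.Basis (Fin N) ℤ (𝓞 K))
    (h : Fin (e + 1) → MvPolynomial (Fin (n + 1)) (𝓞 L)) (Φ : Fin (n + 1) → Pol (𝓞 K) r s)
    {ι : Fin (n + 1) → Type} [∀ j, Fintype (ι j)] (Λ : (j : Fin (n + 1)) → ι j → Pol (𝓞 K) r s)
    (c : (Σ j, ι j) × Fin N → ℤ) (V : Fin r → Fin 3 → L) (u : Fin s → L) (i : Fin (e + 1)) : L :=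
  MvPolynomial.eval₂ (algebraMap (𝓞 L) L) (coord ω Φ Λ c V u) (h i)

/-- the set of the `c` such that for some point `P` of `G` over `L`, with `S`-units as torus
coordinates, the Galois group of `h(φ_c(P); X)` over `L` is not `𝒢` -/
def Exceptional {K L : Type} [Field K] [NumberField K] [Field L] [Algebra K L] {N r s n e : ℕ}
    (ω : Module.Basis (Fin N) ℤ (𝓞 K)) (a b : Fin r → ℤ)
    (h : Fin (e + 1) → MvPolynomial (Fin (n + 1)) (𝓞 L)) (𝒢 : Subgroup (Equiv.Perm (Fin e)))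
    (Φ : Fin (n + 1) → Pol (𝓞 K) r s)
    {ι : Fin (n + 1) → Type} [∀ j, Fintype (ι j)] (Λ : (j : Fin (n + 1)) → ι j → Pol (𝓞 K) r s)
    (S : ℕ) : Set ((Σ j, ι j) × Fin N → ℤ) :=
  {c | ∃ (V : Fin r → Fin 3 → L) (u : Fin s → L), OnG a b V u ∧ (∀ l, SUnit S (u l)) ∧
    ¬ GalIs (spec ω h Φ Λ c V u) 𝒢}

/-- the set of the `c` such that the covering `h(φ_c(P); X) = 0` of `G` has a point over `L`, over a
point `P` of `G` with `S`-units as torus coordinates: a solution `X = x ∈ L` or, if the leading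
coefficient vanishes, `X = ∞` -/
def HasPoint {K L : Type} [Field K] [NumberField K] [Field L] [Algebra K L] {N r s n e : ℕ}
    (ω : Module.Basis (Fin N) ℤ (𝓞 K)) (a b : Fin r → ℤ)
    (h : Fin (e + 1) → MvPolynomial (Fin (n + 1)) (𝓞 L))
    (Φ : Fin (n + 1) → Pol (𝓞 K) r s)
    {ι : Fin (n + 1) → Type} [∀ j, Fintype (ι j)] (Λ : (j : Fin (n + 1)) → ι j → Pol (𝓞 K) r s)
    (S : ℕ) : Set ((Σ j, ι j) × Fin N → ℤ) :=
  {c | ∃ (V : Fin r → Fin 3 → L) (u : Fin s → L), OnG a b V u ∧ (∀ l, SUnit S (u l)) ∧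
    (spec ω h Φ Λ c V u (Fin.last e) = 0 ∨ ∃ x : L, ∑ i, spec ω h Φ Λ c V u i * x ^ (i : ℕ) = 0)}

/-- `h` defines a covering of `ℙ^n` over `L` which is regular with the group `𝒢`: the `h_i` are
homogeneous of the same degree, the Galois group of `h` over `L(T)` is `𝒢`, and on some complex line
`y + x v` the Galois group of `h` over `ℂ(x)` is `𝒢`, too -/
def Regular {L : Type} [Field L] {n e : ℕ}
    (h : Fin (e + 1) → MvPolynomial (Fin (n + 1)) (𝓞 L)) (𝒢 : Subgroup (Equiv.Perm (Fin e))) : Prop :=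
  (∃ D : ℕ, ∀ i, (h i).IsHomogeneous D) ∧
  GalIs (fun i => algebraMap (MvPolynomial (Fin (n + 1)) (𝓞 L))
    (FractionRing (MvPolynomial (Fin (n + 1)) (𝓞 L))) (h i)) 𝒢 ∧
  ∃ (τ : L →+* ℂ) (y v : Fin (n + 1) → ℂ), GalIs (fun i =>
    MvPolynomial.eval₂ ((RatFunc.C : ℂ →+* RatFunc ℂ).comp (emb τ))
      (fun j => RatFunc.C (y j) + RatFunc.C (v j) * RatFunc.X) (h i)) 𝒢

/-- `K` is not totally real or `L` has a real embedding -/
def Comparable (K L : Type) [Field K] [Field L] : Prop :=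
  (∃ (τ : K →+* ℂ) (x : K), (τ x).im ≠ 0) ∨ ∃ τ : L →+* ℂ, ∀ x, (τ x).im = 0

/-- the permutation group `𝒢` is transitive -/
def Transitive {e : ℕ} (𝒢 : Subgroup (Equiv.Perm (Fin e))) : Prop := ∀ i j, ∃ σ ∈ 𝒢, σ i = j

theorem cmp_of {K L : Type} [Field K] [Field L] [Algebra K L] [Algebra.IsAlgebraic K L]
    (h : Comparable K L) : Pool.Agent.N89.HA.Cmp K L := by
  rcases h with ⟨τ, x, hx⟩ | ⟨τ, hτ⟩
  · let _ : Algebra K ℂ := τ.toAlgebra
    let f : L →ₐ[K] ℂ := IsAlgClosed.lift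
    refine ⟨f, Or.inr ⟨x, ?_⟩⟩
    have h1 : (f : L →+* ℂ) (algebraMap K L x) = τ x := f.commutes x
    rw [h1]
    exact hx
  · exact ⟨τ, Or.inl hτ⟩

/-- a polynomial with a transitive Galois group, of degree at least two, has no roots -/
theorem no_root {L : Type} [Field L] {e : ℕ} (he : 2 ≤ e) {𝒢 : Subgroup (Equiv.Perm (Fin e))}
    (ht : Transitive 𝒢) {f : Fin (e + 1) → L} (hf : GalIs f 𝒢) :
    ¬ (f (Fin.last e) = 0 ∨ ∃ x : L, ∑ i, f i * x ^ (i : ℕ) = 0) := by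
  obtain ⟨x, ⟨h1, h2, h3⟩, h4⟩ := hf
  rintro (h | ⟨y, hy⟩)
  · exact h1 h
  have h5 := congrArg (Polynomial.eval (algebraMap L (AlgebraicClosure L) y)) h3
  rw [Polynomial.eval_map_algebraMap, Polynomial.aeval_algebraMap_apply, Polynomial.eval_mul,
    Polynomial.eval_C, Polynomial.eval_prod] at h5
  have h6 : Polynomial.aeval y (∑ i, C (f i) * X ^ (i : ℕ)) = 0 := by
    rw [← hy]
    simp [Polynomial.aeval_def, Polynomial.eval₂_finset_sum]
  rw [h6, map_zero] at h5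
  rcases mul_eq_zero.1 h5.symm with h7 | h7
  · exact h1 ((map_eq_zero _).1 h7)
  obtain ⟨i, -, hi⟩ := Finset.prod_eq_zero_iff.1 h7
  rw [Polynomial.eval_sub, Polynomial.eval_X, Polynomial.eval_C, sub_eq_zero] at hi
  obtain ⟨j, hj⟩ : ∃ j : Fin e, j ≠ i := by
    have : Nontrivial (Fin e) := Fin.nontrivial_iff_two_le.2 he
    exact exists_ne i
  obtain ⟨σ, hσ, hσi⟩ := ht i j
  obtain ⟨τ, hτ⟩ := (h4 σ).1 hσ
  have h8 := hτ i
  rw [hσi, ← hi, AlgEquiv.commutes, hi] at h8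
  exact hj (h2 h8).symm

theorem hasPoint_sub {K L : Type} [Field K] [NumberField K] [Field L] [Algebra K L] {N r s n e : ℕ}
    (ω : Module.Basis (Fin N) ℤ (𝓞 K)) (a b : Fin r → ℤ)
    (h : Fin (e + 1) → MvPolynomial (Fin (n + 1)) (𝓞 L)) (𝒢 : Subgroup (Equiv.Perm (Fin e)))
    (Φ : Fin (n + 1) → Pol (𝓞 K) r s)
    {ι : Fin (n + 1) → Type} [∀ j, Fintype (ι j)] (Λ : (j : Fin (n + 1)) → ι j → Pol (𝓞 K) r s)
    (S : ℕ) (he : 2 ≤ e) (ht : Transitive 𝒢) :
    HasPoint ω a b h Φ Λ S ⊆ Exceptional ω a b h 𝒢 Φ Λ S := by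
  rintro c ⟨V, u, h1, h2, h3⟩
  exact ⟨V, u, h1, h2, fun h4 => no_root he ht h4 h3⟩

theorem result (K : Type) [Field K] [NumberField K] (N : ℕ) (ω : Module.Basis (Fin N) ℤ (𝓞 K))
    (r s n : ℕ) (a b : Fin r → ℤ) (hab : ∀ i, a i * b i = 0 ∧ (a i ≠ 0 ∨ b i ≠ 0)) (σ : K →+* ℂ)
    -- the maps `φ_c`
    (Φ : Fin (n + 1) → Pol (𝓞 K) r s) (ι : Fin (n + 1) → Type) [∀ j, Fintype (ι j)]
    (Λ : (j : Fin (n + 1)) → ι j → Pol (𝓞 K) r s) (d : Fin r → ℕ)
    (hΦ : ∀ j, Homog (Φ j) d) (hΛ : ∀ j x, Homog (Λ j x) d)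
    (hbp : ∀ j V u, OnG a b V u → ∃ x, val (emb σ) (Λ j x) V u ≠ 0) :
    -- 1. the number of the exceptional `c` for one field, one covering
    (∀ L : IntermediateField K (AlgebraicClosure K), FiniteDimensional K L → Comparable K L →
      ∀ (e : ℕ) (h : Fin (e + 1) → MvPolynomial (Fin (n + 1)) (𝓞 L))
        (𝒢 : Subgroup (Equiv.Perm (Fin e))), Regular h 𝒢 → ∀ S : ℕ, 1 ≤ S →
      (2 ≤ e → Transitive 𝒢 → HasPoint ω a b h Φ Λ S ⊆ Exceptional ω a b h 𝒢 Φ Λ S) ∧
      ∃ c₀ : ℝ, 0 < c₀ ∧ ∃ H₀ : ℕ, ∀ H : ℕ, H₀ ≤ H →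
        (({c : (Σ j, ι j) × Fin N → ℤ | (∀ i, |c i| ≤ (H : ℤ)) ∧
          c ∈ Exceptional ω a b h 𝒢 Φ Λ S}.ncard : ℕ) : ℝ) ≤
          (2 * (H : ℝ) + 1) ^ (Fintype.card (Σ j, ι j) * N) *
            Real.exp (-c₀ * (Real.log H / Real.log (Real.log H)))) ∧
    -- 2. one exceptional set for all fields `L`, all coverings `h`, all groups `𝒢` and all `S`
    ∃ E : Set ((Σ j, ι j) × Fin N → ℤ),
      (∃ H₀ : ℕ, ∀ H : ℕ, H₀ ≤ H → (({c : (Σ j, ι j) × Fin N → ℤ |
        (∀ i, |c i| ≤ (H : ℤ)) ∧ c ∈ E}.ncard : ℕ) : ℝ) ≤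
        (2 * (H : ℝ) + 1) ^ (Fintype.card (Σ j, ι j) * N) *
          Real.exp (-(Real.log H / Real.log (Real.log H) ^ 2))) ∧
      ∀ L : IntermediateField K (AlgebraicClosure K), FiniteDimensional K L → Comparable K L →
        ∀ (e : ℕ) (h : Fin (e + 1) → MvPolynomial (Fin (n + 1)) (𝓞 L))
          (𝒢 : Subgroup (Equiv.Perm (Fin e))), Regular h 𝒢 → ∀ S : ℕ, 1 ≤ S →
        (Exceptional ω a b h 𝒢 Φ Λ S \ E).Finite ∧
          (2 ≤ e → Transitive 𝒢 → (HasPoint ω a b h Φ Λ S \ E).Finite) := by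
  classical
  have hval : ∀ {k : Type} [Field k] (φ : 𝓞 K →+* k) (F : Pol (𝓞 K) r s) (V : Fin r → Fin 3 → k)
      (u : Fin s → k), val φ F V u =
        Pool.Agent.W659.SA.vl φ (Pool.Agent.N89.HL.up F) V u Fin.elim0 := fun φ F V u =>
    (Pool.Agent.N89.HL.vl_up φ F V u Fin.elim0).symm
  have part1 : ∀ L : IntermediateField K (AlgebraicClosure K), FiniteDimensional K L →
      Comparable K L → ∀ (e : ℕ) (h : Fin (e + 1) → MvPolynomial (Fin (n + 1)) (𝓞 L))
      (𝒢 : Subgroup (Equiv.Perm (Fin e))), Regular h 𝒢 → ∀ S : ℕ, 1 ≤ S →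
      ∃ c₀ : ℝ, 0 < c₀ ∧ ∃ H₀ : ℕ, ∀ H : ℕ, H₀ ≤ H →
        (({c : (Σ j, ι j) × Fin N → ℤ | (∀ i, |c i| ≤ (H : ℤ)) ∧
          c ∈ Exceptional ω a b h 𝒢 Φ Λ S}.ncard : ℕ) : ℝ) ≤
          (2 * (H : ℝ) + 1) ^ (Fintype.card (Σ j, ι j) * N) *
            Real.exp (-c₀ * (Real.log H / Real.log (Real.log H))) := by
    rintro L hL hc e h 𝒢 ⟨⟨D, hh⟩, h1, τ, y, v, h2⟩
    have : NumberField L := NumberField.of_module_finite K L
    have key : ∀ S : ℕ, Exceptional ω a b h 𝒢 Φ Λ S =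
        Pool.Agent.N89.HA.BadHA ω a b h 𝒢 (fun i => Pool.Agent.N89.HL.up (Φ i))
          (fun i x => Pool.Agent.N89.HL.up (Λ i x)) S := by
      intro S
      have hco : ∀ (c : (Σ j, ι j) × Fin N → ℤ) (V : Fin r → Fin 3 → L) (u : Fin s → L),
          coord ω Φ Λ c V u = Pool.Agent.N89.HL.zc (Pool.Agent.N89.GS.toL K L)
            (fun i => Pool.Agent.N89.HL.up (Φ i)) (fun i x => Pool.Agent.N89.HL.up (Λ i x)) V u
            (Pool.Agent.N89.HL.vecJ ω c) := by
        intro c V u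
        funext j
        unfold coord
        simp only [hval]
        rfl
      ext c
      constructor
      · rintro ⟨V, u, hV, hu, hc⟩
        refine ⟨V, fun l => Units.mk0 (u l) (hV.2 l), hV.1, fun l => ?_, ?_⟩
        · obtain ⟨n, hn1, hn2⟩ := hu l
          exact ⟨n, hn1, by simpa using hn2⟩
        · unfold spec at hc
          rw [hco] at hc
          exact hc
      · rintro ⟨V, u, hV, hu, hc⟩
        refine ⟨V, fun l => ((u l : Lˣ) : L), ⟨hV, fun l => (u l).ne_zero⟩, fun l => ?_, ?_⟩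
        · obtain ⟨n, hn1, hn2⟩ := hu l
          exact ⟨n, hn1, by simpa using hn2⟩
        · unfold spec
          rw [hco]
          exact hc
    have h' := Pool.Agent.N89.HA.finHA K L (cmp_of hc) N ω r s n e D a b hab h hh 𝒢 h1 τ y v h2 σ
      (fun i => Pool.Agent.N89.HL.up (Φ i)) ι (fun i x => Pool.Agent.N89.HL.up (Λ i x)) d
      (fun i => Pool.Agent.N89.HL.mhomog_up (hΦ i))
      (fun i x => Pool.Agent.N89.HL.mhomog_up (hΛ i x)) (fun i V u hV => by
        obtain ⟨x, hx⟩ := hbp i V u ⟨hV.1, hV.2⟩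
        refine ⟨x, ?_⟩
        rw [hval] at hx
        exact hx)
    simp only [key]
    exact h'
  refine ⟨fun L hL hc e h 𝒢 hR S hS => ⟨fun he ht => hasPoint_sub ω a b h 𝒢 Φ Λ S he ht,
    part1 L hL hc e h 𝒢 hR S hS⟩, ?_⟩
  -- countably many fields and coverings
  have hct : Countable {L : IntermediateField K (AlgebraicClosure K) //
      FiniteDimensional K L ∧ Comparable K L} := by
    have hp : ∀ L : {L : IntermediateField K (AlgebraicClosure K) //
        FiniteDimensional K L ∧ Comparable K L}, ∃ θ : AlgebraicClosure K,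
          IntermediateField.adjoin K {θ} = L.1 := by
      rintro ⟨L, hL, -⟩
      obtain ⟨α, hα⟩ := Field.exists_primitive_element K L
      refine ⟨α, ?_⟩
      have h2 : (IntermediateField.adjoin K {α}).map L.val =
          IntermediateField.adjoin K {(α : AlgebraicClosure K)} := by
        rw [IntermediateField.adjoin_map, Set.image_singleton]
        rfl
      rw [← h2, hα, ← AlgHom.fieldRange_eq_map]
      exact L.fieldRange_val
    choose θ hθ using hp
    have hinj : Function.Injective θ := by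
      intro L L' hLL
      apply Subtype.ext
      rw [← hθ L, ← hθ L', hLL]
    exact hinj.countable
  let Fd : Type := {L : IntermediateField K (AlgebraicClosure K) //
      FiniteDimensional K L ∧ Comparable K L}
  have hcL : ∀ L : Fd, Countable (𝓞 L.1) := fun L => by
    have : Function.Injective (fun x : 𝓞 L.1 => ((x : L.1) : AlgebraicClosure K)) := by
      intro x y hxy
      exact RingOfIntegers.ext (Subtype.ext hxy)
    exact this.countable
  have hcM : ∀ L : Fd, Countable (MvPolynomial (Fin (n + 1)) (𝓞 L.1)) := fun L => by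
    have := hcL L
    rw [← Cardinal.mk_le_aleph0_iff]
    refine MvPolynomial.cardinalMk_le_max.trans ?_
    simp
  let I : Type := {z : Σ (L : Fd) (e : ℕ), (Fin (e + 1) → MvPolynomial (Fin (n + 1)) (𝓞 L.1)) ×
    Subgroup (Equiv.Perm (Fin e)) × ℕ // Regular z.2.2.1 z.2.2.2.1 ∧ 1 ≤ z.2.2.2.2}
  have : Countable I := inferInstance
  obtain ⟨E, hE1, hE2⟩ := Pool.Agent.N89.GS.diag (X := (Σ j, ι j) × Fin N → ℤ) (I := I)
    (fun (c : (Σ j, ι j) × Fin N → ℤ) (H : ℕ) => ∀ i, |c i| ≤ (H : ℤ))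
    (fun c H H' h hc i => (hc i).trans (by exact_mod_cast h))
    (fun H => Pool.Agent.N89.HL.boxJ_finite H) (Fintype.card (Σ j, ι j) * N)
    (fun z => Exceptional ω a b z.1.2.2.1 z.1.2.2.2.1 Φ Λ z.1.2.2.2.2)
    (fun z => part1 z.1.1.1 z.1.1.2.1 z.1.1.2.2 z.1.2.1 z.1.2.2.1 z.1.2.2.2.1 z.2.1 z.1.2.2.2.2
      z.2.2)
  refine ⟨E, hE1, fun L hL hc e h 𝒢 hR S hS => ?_⟩
  have h1 := hE2 ⟨⟨⟨L, hL, hc⟩, e, h, 𝒢, S⟩, hR, hS⟩
  exact ⟨h1, fun he ht => h1.subset
    (Set.sdiff_subset_sdiff_left (hasPoint_sub ω a b h 𝒢 Φ Λ S he ht))⟩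

end Pool.Agent.N89.MI.Cov
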