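import Pool.Agent.N89.MI.Quad
import Pool.Agent.N403.BD.SUF

/-! Project MI (helper89): multiplicative relations modulo `S`-units give squares. -/

set_option autoImplicit false

namespace Pool.Agent.N89.MI

open NumberField Pool.Agent.N89.MI.Cov

theorem isIntegral_natCast_pow {L : Type} [Field L] (S n : ℕ) : IsIntegral ℤ ((S : L) ^ n) := by
  have h : IsIntegral ℤ ((S : ℤ) : L) := isIntegral_algebraMap
  rw [Int.cast_natCast] at h
  exact h.pow n

/-- square roots of `S`-units are `S`-units -/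
theorem sunit_sq {L : Type} [Field L] {S : ℕ} {y : L} (h : SUnit S (y ^ 2)) : SUnit S y := by
  obtain ⟨n, h1, h2⟩ := h
  refine ⟨n, ?_, ?_⟩
  · refine IsIntegral.of_pow two_pos ?_
    have h3 : ((S : L) ^ n * y) ^ 2 = (S : L) ^ n * ((S : L) ^ n * y ^ 2) := by ring
    rw [h3]
    exact (isIntegral_natCast_pow S n).mul h1
  · refine IsIntegral.of_pow two_pos ?_
    have h3 : ((S : L) ^ n * y⁻¹) ^ 2 = (S : L) ^ n * ((S : L) ^ n * (y ^ 2)⁻¹) := by
      rw [← inv_pow]
      ring
    rw [h3]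
    exact (isIntegral_natCast_pow S n).mul h2

/-- a multiplicative relation modulo `S`-units gives a product `∏_(j ∈ I) t_j` which is an `S`-unit
times a square -/
theorem descent {L : Type} [Field L] {S n : ℕ} (t : Fin (n + 1) → L) (ht : ∀ j, t j ≠ 0) :
    ∀ (N : ℕ) (m : Fin (n + 1) → ℤ), ∑ j, (m j).natAbs ≤ N → m ≠ 0 → ∑ j, m j = 0 →
      SUnit S (∏ j, t j ^ m j) → ∃ (I : Finset (Fin (n + 1))) (k : ℕ) (y w : L), I.Nonempty ∧
        I.card = 2 * k ∧ y ≠ 0 ∧ w ≠ 0 ∧ SUnit S y ∧ ∏ j ∈ I, t j = y * w ^ 2 := by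
  classical
  intro N
  induction N with
  | zero =>
    intro m hm hm0
    exfalso
    apply hm0
    funext j
    have h1 := Finset.sum_eq_zero_iff.1 (Nat.le_zero.1 hm) j (Finset.mem_univ j)
    exact Int.natAbs_eq_zero.1 h1
  | succ N ih =>
    intro m hm hm0 hs hu
    by_cases hev : ∀ j, Even (m j)
    · choose k hk using hev
      have hk2 : ∀ j, m j = 2 * k j := fun j => by rw [hk j]; ring
      have hk0 : k ≠ 0 := by
        rintro rfl
        apply hm0
        funext j
        rw [hk2 j]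
        simp
      have hks : ∑ j, k j = 0 := by
        have h1 : 2 * ∑ j, k j = 0 := by
          rw [Finset.mul_sum, ← hs]
          exact Finset.sum_congr rfl fun j _ => (hk2 j).symm
        omega
      have hpos : 0 < ∑ j, (k j).natAbs := by
        rw [Nat.pos_iff_ne_zero]
        intro h1
        apply hk0
        funext j
        exact Int.natAbs_eq_zero.1 (Finset.sum_eq_zero_iff.1 h1 j (Finset.mem_univ j))
      have hsum : ∑ j, (m j).natAbs = 2 * ∑ j, (k j).natAbs := by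
        rw [Finset.mul_sum]
        refine Finset.sum_congr rfl fun j _ => ?_
        rw [hk2 j, Int.natAbs_mul]
        rfl
      refine ih k (by omega) hk0 hks (sunit_sq ?_)
      have h2 : (∏ j, t j ^ k j) ^ 2 = ∏ j, t j ^ m j := by
        rw [← Finset.prod_pow]
        refine Finset.prod_congr rfl fun j _ => ?_
        rw [hk2 j, mul_comm, zpow_mul, zpow_ofNat]
      rw [h2]
      exact hu
    · push Not at hev
      obtain ⟨j₀, hj₀⟩ := hev
      let I : Finset (Fin (n + 1)) := Finset.univ.filter fun j => ¬ Even (m j)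
      have hdec : ∀ j, ∃ k : ℤ, m j = 2 * k + if j ∈ I then 1 else 0 := by
        intro j
        by_cases hj : Even (m j)
        · obtain ⟨k, hk⟩ := hj
          refine ⟨k, ?_⟩
          rw [if_neg (by simp only [I, Finset.mem_filter, not_and, not_not]
                         exact fun _ => ⟨k, hk⟩), hk]
          ring
        · obtain ⟨k, hk⟩ := Int.not_even_iff_odd.1 hj
          refine ⟨k, ?_⟩
          rw [if_pos (by simp only [I, Finset.mem_filter]
                         exact ⟨Finset.mem_univ _, hj⟩), hk]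
      choose k hk using hdec
      have hcard : (I.card : ℤ) = -2 * ∑ j, k j := by
        have h1 : ∑ j, m j = 2 * ∑ j, k j + I.card := by
          rw [Finset.mul_sum, Finset.sum_congr rfl fun j _ => hk j, Finset.sum_add_distrib]
          congr 1
          rw [Finset.sum_ite_mem, Finset.univ_inter]
          simp
        rw [hs] at h1
        linarith
      obtain ⟨q, hq⟩ : ∃ q : ℕ, I.card = 2 * q := by
        have h1 : Even (I.card : ℤ) := ⟨-∑ j, k j, by rw [hcard]; ring⟩
        rw [Int.even_coe_nat] at h1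
        obtain ⟨q, hq⟩ := h1
        exact ⟨q, by omega⟩
      have hw : ∏ j, t j ^ k j ≠ 0 := Finset.prod_ne_zero_iff.2 fun j _ => zpow_ne_zero _ (ht j)
      refine ⟨I, q, ∏ j, t j ^ m j, (∏ j, t j ^ k j)⁻¹, ⟨j₀, ?_⟩, hq, ?_, inv_ne_zero hw, hu, ?_⟩
      · simp only [I, Finset.mem_filter]
        exact ⟨Finset.mem_univ _, hj₀⟩
      · exact Finset.prod_ne_zero_iff.2 fun j _ => zpow_ne_zero _ (ht j)
      · have h2 : ∏ j, t j ^ m j = (∏ j, t j ^ k j) ^ 2 * ∏ j ∈ I, t j := by
          have hI : ∏ j ∈ I, t j = ∏ j, (if j ∈ I then t j else 1) := by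
            rw [Finset.prod_ite_mem, Finset.univ_inter]
          rw [← Finset.prod_pow, hI, ← Finset.prod_mul_distrib]
          refine Finset.prod_congr rfl fun j _ => ?_
          rw [← zpow_ofNat, ← zpow_mul, mul_comm (k j)]
          conv_lhs => rw [hk j, zpow_add₀ (ht j)]
          by_cases hj : j ∈ I
          · rw [if_pos hj, if_pos hj, zpow_one]
          · rw [if_neg hj, if_neg hj, zpow_zero]
        rw [h2]
        field_simp

/-- the `S`-units modulo squares -/
theorem exists_classes (L : Type) [Field L] [NumberField L] (S : ℕ) (hS : 1 ≤ S) :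
    ∃ A : Finset (𝓞 L), (∀ u ∈ A, u ≠ 0) ∧ 1 ∈ A ∧
      ∀ y : L, y ≠ 0 → SUnit S y → ∃ u ∈ A, ∃ w : L, w ≠ 0 ∧ y = (u : L) * w ^ 2 := by
  classical
  have hfg := Pool.Agent.N403.BDSUF.main L S hS
  let Γ := Pool.Agent.N89.BD.SUn L S
  have : Group.FG Γ := (Group.fg_iff_subgroup_fg Γ).2 hfg
  -- the squares
  let Q : Subgroup Γ := (powMonoidHom 2 : Γ →* Γ).range
  have hfin : Finite (Γ ⧸ Q) := by
    have : Group.FG (Γ ⧸ Q) := QuotientGroup.fg Q
    refine CommGroup.finite_of_fg_isMulTorsion (G := Γ ⧸ Q) fun g => ?_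
    obtain ⟨g, rfl⟩ := QuotientGroup.mk_surjective g
    rw [isOfFinOrder_iff_pow_eq_one]
    refine ⟨2, two_pos, ?_⟩
    rw [← QuotientGroup.mk_pow, QuotientGroup.eq_one_iff]
    exact ⟨g, rfl⟩
  have : Fintype (Γ ⧸ Q) := Fintype.ofFinite _
  have hrep : ∀ κ : Lˣ, ∃ u : 𝓞 L, u ≠ 0 ∧ ∃ w : L, w ≠ 0 ∧ (κ : L) = (u : L) * w ^ 2 := by
    intro κ
    obtain ⟨a, b, hb, hab⟩ := IsFractionRing.div_surjective (A := 𝓞 L) (κ : L)
    have hb0 : b ≠ 0 := nonZeroDivisors.ne_zero hb
    have hb1 : algebraMap (𝓞 L) L b ≠ 0 := by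
      rw [Ne, FaithfulSMul.algebraMap_eq_zero_iff]
      exact hb0
    have ha0 : a ≠ 0 := by
      rintro rfl
      rw [map_zero, zero_div] at hab
      exact κ.ne_zero hab.symm
    refine ⟨a * b, mul_ne_zero ha0 hb0, (algebraMap (𝓞 L) L b)⁻¹, inv_ne_zero hb1, ?_⟩
    rw [← hab]
    change _ = algebraMap (𝓞 L) L (a * b) * _
    rw [map_mul]
    field_simp
  choose f hf0 hf using hrep
  refine ⟨insert 1 (Finset.univ.image fun g : Γ ⧸ Q => f ((g.out : Γ) : Lˣ)), ?_,
    Finset.mem_insert_self _ _, ?_⟩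
  · intro u hu
    rcases Finset.mem_insert.1 hu with rfl | hu
    · exact one_ne_zero
    · obtain ⟨g, -, rfl⟩ := Finset.mem_image.1 hu
      exact hf0 _
  · intro y hy0 hy
    obtain ⟨n, hn1, hn2⟩ := hy
    let g : Γ := ⟨Units.mk0 y hy0, n, hn1, by simpa using hn2⟩
    let κ : Γ := (g : Γ ⧸ Q).out
    have h1 : (κ : Γ ⧸ Q) = (g : Γ ⧸ Q) := Quotient.out_eq _
    obtain ⟨δ, hδ⟩ := QuotientGroup.eq.1 h1
    have h2 : g = κ * δ ^ 2 := by
      have h3 : δ ^ 2 = κ⁻¹ * g := hδ
      rw [h3, mul_inv_cancel_left]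
    have h3 : y = ((κ : Lˣ) : L) * ((δ : Lˣ) : L) ^ 2 := by
      have h4 := congrArg (fun z : Γ => ((z : Lˣ) : L)) h2
      have h5 : ((g : Lˣ) : L) = y := rfl
      rw [← h5]
      simpa using h4
    obtain ⟨w, hw0, hw⟩ := hf (κ : Lˣ)
    refine ⟨f (κ : Lˣ), Finset.mem_insert_of_mem (Finset.mem_image.2
      ⟨(g : Γ ⧸ Q), Finset.mem_univ _, rfl⟩), w * ((δ : Lˣ) : L),
      mul_ne_zero hw0 (Units.ne_zero _), ?_⟩
    rw [h3, hw]
    ring

end Pool.Agent.N89.MI
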