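import Pool.Agent.N89.MI.Cov

/-! Project MI (helper89): the coverings `u T_0^(2k) X² = ∏_(j ∈ I) T_j` are regular with the group `S_2`. -/

set_option autoImplicit false

namespace Pool.Agent.N89.MI

open Polynomial NumberField Pool.Agent.N89.MI.Cov

/-- a quadratic polynomial `A X² - B` without roots has the Galois group `S_2` -/
theorem quad_gal {F : Type} [Field F] [CharZero F] {A B : F} (hA : A ≠ 0) (hB : B ≠ 0)
    (h : ∀ z : F, A * z ^ 2 ≠ B) {f : Fin (2 + 1) → F} (h0 : f 0 = -B) (h1 : f 1 = 0)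
    (h2 : f 2 = A) : GalIs f (⊤ : Subgroup (Equiv.Perm (Fin 2))) := by
  set φ := algebraMap F (AlgebraicClosure F) with hφ
  obtain ⟨r, hr⟩ := IsAlgClosed.exists_pow_nat_eq (φ (B / A)) (n := 2) (by norm_num)
  have hr0 : r ≠ 0 := by
    rintro rfl
    rw [zero_pow two_ne_zero, eq_comm, map_eq_zero] at hr
    exact (div_ne_zero hB hA) hr
  have hrr : r ≠ -r := by
    intro h3
    exact hr0 (self_eq_neg.1 h3)
  have hAr : φ B = φ A * r ^ 2 := by
    rw [hr, ← map_mul]
    congr 1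
    field_simp
  refine ⟨![r, -r], ⟨?_, ?_, ?_⟩, ?_⟩
  · change f 2 ≠ 0
    rw [h2]
    exact hA
  · intro i j hij
    fin_cases i <;> fin_cases j
    · rfl
    · exact absurd hij hrr
    · exact absurd hij.symm hrr
    · rfl
  · have h3 : f (Fin.last 2) = A := h2
    rw [h3, Fin.sum_univ_three, Fin.prod_univ_two, h0, h1, h2]
    simp only [Matrix.cons_val_zero, Matrix.cons_val_one, Polynomial.map_add, Polynomial.map_mul,
      Polynomial.map_neg,
      Polynomial.map_pow, Polynomial.map_X, Polynomial.map_C, Fin.val_zero, Fin.val_one,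
      Fin.val_two, pow_zero, pow_one, map_zero, map_neg, zero_mul, mul_one, add_zero, ← hφ]
    rw [hAr]
    simp only [map_mul, map_pow]
    ring
  · intro σ
    refine ⟨fun _ => ?_, fun _ => Subgroup.mem_top _⟩
    -- an automorphism which moves `r`
    obtain ⟨τ, hτ⟩ : ∃ τ : AlgebraicClosure F ≃ₐ[F] AlgebraicClosure F, τ r ≠ r := by
      by_contra hcon
      push Not at hcon
      have h3 : r ∈ (⊥ : IntermediateField F (AlgebraicClosure F)) :=
        (InfiniteGalois.mem_bot_iff_fixed r).2 hcon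
      obtain ⟨z, hz⟩ := IntermediateField.mem_bot.1 h3
      apply h z
      apply φ.injective
      rw [map_mul, map_pow, hAr, ← hz]
    have hτr : τ r = -r := by
      have h4 : (τ r) ^ 2 = r ^ 2 := by
        rw [← map_pow, hr, hφ, AlgEquiv.commutes]
      rcases sq_eq_sq_iff_eq_or_eq_neg.1 h4 with h5 | h5
      · exact absurd h5 hτ
      · exact h5
    by_cases hσ : σ 0 = 0
    · have hσ1 : σ 1 = 1 := by
        have h6 : σ 1 ≠ σ 0 := fun h7 => by simpa using σ.injective h7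
        rw [hσ] at h6
        exact Fin.eq_one_of_ne_zero _ h6
      refine ⟨AlgEquiv.refl, fun i => ?_⟩
      fin_cases i
      · change r = ![r, -r] (σ 0)
        rw [hσ]
        rfl
      · change -r = ![r, -r] (σ 1)
        rw [hσ1]
        rfl
    · have hσ0 : σ 0 = 1 := Fin.eq_one_of_ne_zero _ hσ
      have hσ1 : σ 1 = 0 := by
        by_contra h6
        have h7 : σ 1 = 1 := Fin.eq_one_of_ne_zero _ h6
        have h8 : σ 1 = σ 0 := by rw [h7, hσ0]
        simpa using σ.injective h8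
      refine ⟨τ, fun i => ?_⟩
      fin_cases i
      · change τ r = ![r, -r] (σ 0)
        rw [hσ0]
        exact hτr
      · change τ (-r) = ![r, -r] (σ 1)
        rw [hσ1, map_neg, hτr, neg_neg]
        rfl

/-- the coefficients of `u T_0^(2k) X² - ∏_(j ∈ I) T_j` -/
noncomputable def hpol {O : Type} [CommRing O] {n : ℕ} (k : ℕ) (I : Finset (Fin (n + 1))) (u : O) :
    Fin (2 + 1) → MvPolynomial (Fin (n + 1)) O :=
  ![-∏ j ∈ I, MvPolynomial.X j, 0, MvPolynomial.C u * MvPolynomial.X 0 ^ (2 * k)]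

theorem degreeOf_prod_X {O : Type} [CommRing O] [IsDomain O] {n : ℕ} (I : Finset (Fin (n + 1)))
    {j : Fin (n + 1)} (hj : j ∈ I) :
    MvPolynomial.degreeOf j (∏ l ∈ I, (MvPolynomial.X l : MvPolynomial (Fin (n + 1)) O)) = 1 := by
  classical
  rw [MvPolynomial.degreeOf_prod_eq _ _ fun i _ => MvPolynomial.X_ne_zero i]
  rw [Finset.sum_eq_single j]
  · rw [MvPolynomial.degreeOf_X, if_pos rfl]
  · intro b _ hb
    rw [MvPolynomial.degreeOf_X, if_neg (Ne.symm hb)]
  · intro h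
    exact absurd hj h

theorem no_sq_mv {O : Type} [CommRing O] [IsDomain O] {n : ℕ} (k : ℕ) {I : Finset (Fin (n + 1))}
    (hI : I.Nonempty) {u : O} (hu : u ≠ 0)
    (z : FractionRing (MvPolynomial (Fin (n + 1)) O)) :
    algebraMap (MvPolynomial (Fin (n + 1)) O) (FractionRing (MvPolynomial (Fin (n + 1)) O))
      (MvPolynomial.C u * MvPolynomial.X 0 ^ (2 * k)) * z ^ 2 ≠
    algebraMap (MvPolynomial (Fin (n + 1)) O) (FractionRing (MvPolynomial (Fin (n + 1)) O))
      (∏ j ∈ I, MvPolynomial.X j) := by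
  classical
  intro h
  obtain ⟨j, hj⟩ := hI
  obtain ⟨p, q, hq, rfl⟩ := IsFractionRing.div_surjective (A := MvPolynomial (Fin (n + 1)) O) z
  have hq0 : q ≠ 0 := nonZeroDivisors.ne_zero hq
  have hq1 : algebraMap (MvPolynomial (Fin (n + 1)) O)
      (FractionRing (MvPolynomial (Fin (n + 1)) O)) q ≠ 0 := by
    rw [Ne, FaithfulSMul.algebraMap_eq_zero_iff]
    exact hq0
  have hX : (∏ j ∈ I, (MvPolynomial.X j : MvPolynomial (Fin (n + 1)) O)) ≠ 0 :=
    Finset.prod_ne_zero_iff.2 fun i _ => MvPolynomial.X_ne_zero i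
  have h1 : (MvPolynomial.C u * MvPolynomial.X 0 ^ (2 * k)) * p ^ 2 =
      (∏ j ∈ I, (MvPolynomial.X j : MvPolynomial (Fin (n + 1)) O)) * q ^ 2 := by
    apply IsFractionRing.injective (MvPolynomial (Fin (n + 1)) O)
      (FractionRing (MvPolynomial (Fin (n + 1)) O))
    rw [div_pow, mul_div_assoc', div_eq_iff (pow_ne_zero 2 hq1)] at h
    rw [map_mul, map_pow, map_mul _ (∏ j ∈ I, _), map_pow]
    exact h
  have hp0 : p ≠ 0 := by
    rintro rfl
    rw [zero_pow two_ne_zero, mul_zero] at h1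
    exact (mul_ne_zero hX (pow_ne_zero 2 hq0)) h1.symm
  have hXk : (MvPolynomial.X 0 : MvPolynomial (Fin (n + 1)) O) ^ k ≠ 0 :=
    pow_ne_zero _ (MvPolynomial.X_ne_zero 0)
  have h2 : MvPolynomial.C u * ((MvPolynomial.X 0 ^ k * p) * (MvPolynomial.X 0 ^ k * p)) =
      (∏ j ∈ I, (MvPolynomial.X j : MvPolynomial (Fin (n + 1)) O)) * (q * q) := by
    rw [← pow_two q, ← h1]
    ring
  have h3 := congrArg (MvPolynomial.degreeOf j) h2
  have hCu : (MvPolynomial.C u : MvPolynomial (Fin (n + 1)) O) ≠ 0 := by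
    rw [Ne, MvPolynomial.C_eq_zero]
    exact hu
  have hXp : (MvPolynomial.X 0 : MvPolynomial (Fin (n + 1)) O) ^ k * p ≠ 0 := mul_ne_zero hXk hp0
  rw [MvPolynomial.degreeOf_mul_eq hCu (mul_ne_zero hXp hXp), MvPolynomial.degreeOf_mul_eq hXp hXp,
    MvPolynomial.degreeOf_mul_eq hX (mul_ne_zero hq0 hq0), MvPolynomial.degreeOf_mul_eq hq0 hq0,
    MvPolynomial.degreeOf_C, degreeOf_prod_X I hj] at h3
  omega

theorem no_sq_rat (κ : ℕ) {u : ℂ} (hu : u ≠ 0) (z : RatFunc ℂ) :
    RatFunc.C u * (RatFunc.X ^ κ) ^ 2 * z ^ 2 ≠ RatFunc.X := by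
  intro h
  obtain ⟨p, q, hq, rfl⟩ := IsFractionRing.div_surjective (A := ℂ[X]) z
  have hq0 : q ≠ 0 := nonZeroDivisors.ne_zero hq
  have hq1 : algebraMap ℂ[X] (RatFunc ℂ) q ≠ 0 := by
    rw [Ne, FaithfulSMul.algebraMap_eq_zero_iff]
    exact hq0
  have h1 : C u * (X ^ κ * p) ^ 2 = X * q ^ 2 := by
    apply IsFractionRing.injective ℂ[X] (RatFunc ℂ)
    rw [div_pow, mul_div_assoc', div_eq_iff (pow_ne_zero 2 hq1)] at h
    rw [map_mul, map_pow, map_mul, map_pow, map_mul _ X, map_pow, RatFunc.algebraMap_C,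
      RatFunc.algebraMap_X, ← h]
    ring
  have hp0 : p ≠ 0 := by
    rintro rfl
    rw [mul_zero, zero_pow two_ne_zero, mul_zero] at h1
    exact (mul_ne_zero X_ne_zero (pow_ne_zero 2 hq0)) h1.symm
  have h3 := congrArg natDegree h1
  rw [natDegree_C_mul hu, natDegree_pow, natDegree_mul X_ne_zero (pow_ne_zero 2 hq0), natDegree_X,
    natDegree_pow] at h3
  omega

/-- the covering `u T_0^(2k) X² = ∏_(j ∈ I) T_j` is regular with the group `S_2` -/
theorem regular_hpol {L : Type} [Field L] [NumberField L] {n : ℕ} (k : ℕ)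
    {I : Finset (Fin (n + 1))} (hI : I.Nonempty) (hk : I.card = 2 * k) {u : 𝓞 L} (hu : u ≠ 0) :
    Regular (hpol k I u) (⊤ : Subgroup (Equiv.Perm (Fin 2))) := by
  classical
  have hprod : (∏ j ∈ I, (MvPolynomial.X j : MvPolynomial (Fin (n + 1)) (𝓞 L))).IsHomogeneous
      (2 * k) := by
    have h := MvPolynomial.IsHomogeneous.prod I
      (fun j => (MvPolynomial.X j : MvPolynomial (Fin (n + 1)) (𝓞 L))) (fun _ => 1)
      (fun j _ => MvPolynomial.isHomogeneous_X _ j)
    simpa [hk] using h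
  refine ⟨⟨2 * k, fun i => ?_⟩, ?_, ?_⟩
  · fin_cases i
    · exact hprod.neg
    · exact MvPolynomial.isHomogeneous_zero _ _ _
    · have h := (MvPolynomial.isHomogeneous_C (Fin (n + 1)) u).mul
        ((MvPolynomial.isHomogeneous_X (𝓞 L) (0 : Fin (n + 1))).pow (2 * k))
      rw [zero_add, one_mul] at h
      exact h
  · refine quad_gal (A := algebraMap (MvPolynomial (Fin (n + 1)) (𝓞 L))
      (FractionRing (MvPolynomial (Fin (n + 1)) (𝓞 L)))
      (MvPolynomial.C u * MvPolynomial.X 0 ^ (2 * k)))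
      (B := algebraMap (MvPolynomial (Fin (n + 1)) (𝓞 L))
      (FractionRing (MvPolynomial (Fin (n + 1)) (𝓞 L))) (∏ j ∈ I, MvPolynomial.X j)) ?_ ?_
      (no_sq_mv k hI hu) ?_ ?_ ?_
    · rw [Ne, FaithfulSMul.algebraMap_eq_zero_iff]
      refine mul_ne_zero ?_ (pow_ne_zero _ (MvPolynomial.X_ne_zero 0))
      rw [Ne, MvPolynomial.C_eq_zero]
      exact hu
    · rw [Ne, FaithfulSMul.algebraMap_eq_zero_iff]
      exact Finset.prod_ne_zero_iff.2 fun i _ => MvPolynomial.X_ne_zero i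
    · change algebraMap _ _ (-∏ j ∈ I, (MvPolynomial.X j : MvPolynomial (Fin (n + 1)) (𝓞 L))) = _
      rw [map_neg]
    · change algebraMap _ _ (0 : MvPolynomial (Fin (n + 1)) (𝓞 L)) = _
      rw [map_zero]
    · rfl
  · obtain ⟨j₀, hj₀⟩ := hI
    obtain ⟨τ⟩ : Nonempty (L →+* ℂ) := inferInstance
    refine ⟨τ, fun j => if j = j₀ then 0 else 1, fun j => if j = j₀ then 1 else 0, ?_⟩
    have hu' : emb τ u ≠ 0 := by
      intro h
      apply hu
      have h1 : τ (u : L) = 0 := h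
      rw [map_eq_zero] at h1
      exact RingOfIntegers.ext h1
    let κ : ℕ := if (0 : Fin (n + 1)) = j₀ then k else 0
    have hT : ∀ j, (RatFunc.C (if j = j₀ then (0 : ℂ) else 1) +
        RatFunc.C (if j = j₀ then (1 : ℂ) else 0) * RatFunc.X : RatFunc ℂ) =
        if j = j₀ then RatFunc.X else 1 := by
      intro j
      by_cases hj : j = j₀
      · simp [hj]
      · simp [hj]
    have hI1 : (∏ j ∈ I, (if j = j₀ then RatFunc.X else 1 : RatFunc ℂ)) = RatFunc.X := by
      rw [Finset.prod_ite_eq' I j₀ (fun _ => (RatFunc.X : RatFunc ℂ)), if_pos hj₀]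
    have h0k : (if (0 : Fin (n + 1)) = j₀ then RatFunc.X else 1 : RatFunc ℂ) ^ (2 * k) =
        (RatFunc.X ^ κ) ^ 2 := by
      by_cases hj : (0 : Fin (n + 1)) = j₀
      · simp only [κ, if_pos hj]
        ring
      · simp only [κ, if_neg hj, one_pow, pow_zero]
    refine quad_gal (A := RatFunc.C (emb τ u) * (RatFunc.X ^ κ) ^ 2) (B := RatFunc.X) ?_
      RatFunc.X_ne_zero (no_sq_rat κ hu') ?_ ?_ ?_
    · refine mul_ne_zero ?_ (pow_ne_zero _ (pow_ne_zero _ RatFunc.X_ne_zero))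
      rw [Ne, map_eq_zero]
      exact hu'
    · change MvPolynomial.eval₂ _ _ (-∏ j ∈ I, MvPolynomial.X j) = _
      rw [MvPolynomial.eval₂_neg, MvPolynomial.eval₂_prod]
      simp only [MvPolynomial.eval₂_X, hT, hI1]
    · change MvPolynomial.eval₂ _ _ (0 : MvPolynomial (Fin (n + 1)) (𝓞 L)) = _
      rw [MvPolynomial.eval₂_zero]
    · change MvPolynomial.eval₂ _ _ (MvPolynomial.C u * MvPolynomial.X 0 ^ (2 * k)) = _
      rw [MvPolynomial.eval₂_mul, MvPolynomial.eval₂_C, MvPolynomial.eval₂_pow,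
        MvPolynomial.eval₂_X, hT, h0k]
      rfl

end Pool.Agent.N89.MI
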